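import Mathlib
import Pool.Agent.Helper844.WP.RFDDefs
import Pool.Agent.Helper844.WP.RFD

/-!
# Associative varieties containing `W_F` are not RFD-varieties

Let `F` be a field of characteristic zero. If a variety of associative algebras contains all
associative algebras with `x[y,z][t,u]v = 0` and `x[y,z,t]u = 0`, then it has a finitely presented
algebra that is not residually finite-dimensional.

The algebra has generators `a, b, x, t, m` and relations `x m = m x`, `t x - x t = x m`,
`a t + a m - a x m = 0`, `t b = 0`. In it `a x^k m b = k! a m b` for all `k`. In a finite-dimensional
image some nonzero combination of the powers of `x` vanishes, and since no nonzero linear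
recurrence with constant coefficients is satisfied by the factorials, `a m b` is zero there. That
`a m b` is not zero in the algebra follows from a model by operators, because the equation
`x f' + f - x f = 1` has no polynomial solution.
-/

set_option autoImplicit false

namespace Pool.Agent.Results.MP_038c09_al.NotRFDAboveW

open Pool.Agent.Helper844.WPN

universe u

/-- If a variety consists of associative algebras and contains all associative algebras with
`x[y,z][t,u]v = 0` and `x[y,z,t]u = 0`, then it is not an RFD-variety. -/
theorem result (F : Type u) [Field F] [CharZero F]
    (I : Set (FreeNonUnitalNonAssocAlgebra F ℕ))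
    (hassoc : ∀ (A : Type u) [NonUnitalNonAssocRing A] [Module F A] [IsScalarTower F A A]
      [SMulCommClass F A A], InVariety I A → ∀ a b c : A, a * b * c = a * (b * c))
    (hW : ∀ (A : Type u) [NonUnitalRing A] [Module F A] [IsScalarTower F A A]
      [SMulCommClass F A A],
      (∀ x y z t u v : A, x * (y * z - z * y) * (t * u - u * t) * v = 0) →
      (∀ x y z t u : A, x * ((y * z - z * y) * t - t * (y * z - z * y)) * u = 0) →
      InVariety I A) :
    ¬ IsRFDVariety I :=
  not_rfd I hassoc hW

end Pool.Agent.Results.MP_038c09_al.NotRFDAboveW
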